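import Mathlib
set_option autoImplicit false

/-!
# Project SP (MP_2a19da_gt, S12929): algebraic definitions

K v 2S^2 ~ L v 2S^2 but not K v S^2 ~ L v S^2. This file: affine group, Fox derivative,
Fox matrix, the words and the two presentations.
-/

namespace Pool.Agent.Helper80.SP

open scoped BigOperators

/-- The affine group: pairs (l, v) acting by x to v + l x; the product is
(l, v)(l', v') = (l l', v + l v'). -/
@[ext] structure Aff (R M : Type) [CommRing R] [AddCommGroup M] [Module R M] where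
  l : Rˣ
  v : M

namespace Aff

variable {R M : Type} [CommRing R] [AddCommGroup M] [Module R M]

instance : Mul (Aff R M) := ⟨fun a b => ⟨a.l * b.l, a.v + (a.l : R) • b.v⟩⟩
instance : One (Aff R M) := ⟨⟨1, 0⟩⟩
instance : Inv (Aff R M) := ⟨fun a => ⟨a.l⁻¹, -(((a.l⁻¹ : Rˣ) : R) • a.v)⟩⟩

@[simp] theorem mul_l (a b : Aff R M) : (a * b).l = a.l * b.l := rfl
@[simp] theorem mul_v (a b : Aff R M) : (a * b).v = a.v + (a.l : R) • b.v := rfl
@[simp] theorem one_l : (1 : Aff R M).l = 1 := rfl
@[simp] theorem one_v : (1 : Aff R M).v = 0 := rfl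
@[simp] theorem inv_l (a : Aff R M) : (a⁻¹).l = a.l⁻¹ := rfl
@[simp] theorem inv_v (a : Aff R M) : (a⁻¹).v = -(((a.l⁻¹ : Rˣ) : R) • a.v) := rfl

instance : Group (Aff R M) where
  mul_assoc a b c := by
    ext
    · simp [mul_assoc]
    · simp [add_assoc, mul_smul]
  one_mul a := by ext <;> simp
  mul_one a := by ext <;> simp
  inv_mul_cancel a := by
    ext
    · simp
    · simp

/-- The linear part. -/
def lin : Aff R M →* Rˣ where
  toFun a := a.l
  map_one' := rfl
  map_mul' _ _ := rfl

/-- A linear map induces a homomorphism of affine groups. -/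
def map {N : Type} [AddCommGroup N] [Module R N] (φ : M →ₗ[R] N) : Aff R M →* Aff R N where
  toFun a := ⟨a.l, φ a.v⟩
  map_one' := by ext <;> simp
  map_mul' a b := by ext <;> simp

@[simp] theorem map_l {N : Type} [AddCommGroup N] [Module R N] (φ : M →ₗ[R] N) (a : Aff R M) :
    (map φ a).l = a.l := rfl
@[simp] theorem map_v {N : Type} [AddCommGroup N] [Module R N] (φ : M →ₗ[R] N) (a : Aff R M) :
    (map φ a).v = φ a.v := rfl

end Aff

section Fox

variable {R ι J : Type} [CommRing R] [DecidableEq ι]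

/-- The Fox homomorphism x_i to (g_i, e_i). -/
noncomputable def foxHom (g : ι → Rˣ) : FreeGroup ι →* Aff R (ι → R) :=
  FreeGroup.lift (fun i => ⟨g i, Pi.single i 1⟩)

/-- The Fox derivative (row vector of all partial derivatives), with values in R via g. -/
noncomputable def fox (g : ι → Rˣ) (w : FreeGroup ι) : ι → R := (foxHom g w).v

/-- The Fox matrix as the linear map (cochains of degree 1) to (cochains of degree 2). -/
noncomputable def foxMat [Fintype ι] (g : ι → Rˣ) (ω : J → FreeGroup ι) :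
    (ι → R) →ₗ[R] (J → R) where
  toFun a := fun j => ∑ i, fox g (ω j) i * a i
  map_add' a b := by
    funext j
    simp [mul_add, Finset.sum_add_distrib]
  map_smul' r a := by
    funext j
    simp only [Pi.smul_apply, smul_eq_mul, RingHom.id_apply, Finset.mul_sum]
    exact Finset.sum_congr rfl (fun i _ => by ring)

/-- The second cohomology module of the presentation complex: cokernel of the Fox matrix. -/
abbrev FoxCoker [Fintype ι] (g : ι → Rˣ) (ω : J → FreeGroup ι) : Type :=
  (J → R) ⧸ LinearMap.range (foxMat g ω)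

end Fox

/-- Group elements as units of the integral group ring. -/
noncomputable def unitOf {Γ : Type} [CommGroup Γ] (x : Γ) : (MonoidAlgebra ℤ Γ)ˣ :=
  Units.map (MonoidAlgebra.of ℤ Γ) (toUnits x)

/-- The ring automorphism of the group ring induced by an automorphism of the group. -/
noncomputable def ringOf {Γ : Type} [CommGroup Γ] (B : Γ ≃* Γ) :
    MonoidAlgebra ℤ Γ →+* MonoidAlgebra ℤ Γ :=
  MonoidAlgebra.mapDomainRingHom ℤ B.toMonoidHom

/-- The lattice Z^3, written multiplicatively: coordinates u, q, t. -/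
abbrev Gam : Type := Multiplicative (Fin 3 → ℤ)

/-- The integral group ring of the lattice. -/
abbrev R3 : Type := MonoidAlgebra ℤ Gam

/-- the element u^a q^b t^c of the lattice -/
def gel (a b c : ℤ) : Gam := Multiplicative.ofAdd ![a, b, c]

/-- Images of the four generators u, q, z, t (indices 0, 1, 2, 3) in the lattice. -/
def gen : Fin 4 → Gam := ![gel 1 0 0, gel 0 1 0, 1, gel 0 0 1]

/-- Images of the generators as units of the group ring. -/
noncomputable def genU (i : Fin 4) : R3ˣ := unitOf (gen i)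

/-- The free group on u, q, z, t. -/
abbrev F4 : Type := FreeGroup (Fin 4)

namespace W

/-- generators -/
def u : F4 := FreeGroup.of 0
def q : F4 := FreeGroup.of 1
def z : F4 := FreeGroup.of 2
def t : F4 := FreeGroup.of 3

/-- kappa = [u,q] -/
def kap : F4 := u * q * u⁻¹ * q⁻¹

/-- commutator x y x^-1 y^-1 -/
def com (x y : F4) : F4 := x * y * x⁻¹ * y⁻¹

/-- The word u^a q^b t^c -/
def mono (m : Gam) : F4 :=
  u ^ (Multiplicative.toAdd m 0) * q ^ (Multiplicative.toAdd m 1) * t ^ (Multiplicative.toAdd m 2)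

/-- w^P: the product of the conjugates (u^a q^b t^c) w^n (u^a q^b t^c)^-1 over the terms
n u^a q^b t^c of P. -/
noncomputable def wpow (w : F4) (P : R3) : F4 :=
  (P.coeff.support.toList.map (fun m => mono m * w ^ (P.coeff m) * (mono m)⁻¹)).prod

end W

/-- The elements u, q, t of the group ring and their inverses. -/
noncomputable def ru : R3 := MonoidAlgebra.of ℤ Gam (gel 1 0 0)
noncomputable def rq : R3 := MonoidAlgebra.of ℤ Gam (gel 0 1 0)
noncomputable def rt : R3 := MonoidAlgebra.of ℤ Gam (gel 0 0 1)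
noncomputable def rui : R3 := MonoidAlgebra.of ℤ Gam (gel (-1) 0 0)
noncomputable def rqi : R3 := MonoidAlgebra.of ℤ Gam (gel 0 (-1) 0)

/-- f = u^2 - 6u - 1 -/
noncomputable def rf : R3 := ru ^ 2 - 6 * ru - 1
/-- y = (q-1)^2/q -/
noncomputable def ry : R3 := (rq - 1) ^ 2 * rqi
/-- alpha = u^-1 q^-1 f (q-1) -/
noncomputable def ral : R3 := rui * rqi * rf * (rq - 1)
/-- b = 1 + y^2 - y f -/
noncomputable def rb : R3 := 1 + ry ^ 2 - ry * rf
/-- beta = f^2 b -/
noncomputable def rbe : R3 := rf ^ 2 * rb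

namespace W

/-- u' = kappa^(u-5) z^((q-1)(u-7)) u -/
noncomputable def u' : F4 := wpow kap (ru - 5) * wpow z ((rq - 1) * (ru - 7)) * u
/-- z' = kappa^(-3) z^(1+(q-1)(u-4)) -/
noncomputable def z' : F4 := wpow kap (-3) * wpow z (1 + (rq - 1) * (ru - 4))
/-- The substitution u to u', q to q, z to z', t to t. -/
noncomputable def eta : F4 →* F4 := FreeGroup.lift ![u', q, z', t]
/-- U = kappa^(q^-1(5-u)) z^(-q^-1(q-1)(u-7)) u -/
noncomputable def U : F4 :=
  wpow kap (rqi * (5 - ru)) * wpow z (-(rqi * (rq - 1) * (ru - 7))) * u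
/-- Z = kappa^(3q^-1(1+yf-f^2)) z^(q^-1(1+yf-f^2)(1+(q-1)(5-u))) -/
noncomputable def Z : F4 :=
  wpow kap (3 * rqi * (1 + ry * rf - rf ^ 2)) *
    wpow z (rqi * (1 + ry * rf - rf ^ 2) * (1 + (rq - 1) * (5 - ru)))
/-- c1 = eta(U)^-1 u -/
noncomputable def c1 : F4 := (eta U)⁻¹ * u
/-- c2 = eta(Z)^-1 z -/
noncomputable def c2 : F4 := (eta Z)⁻¹ * z

end W

open W in
/-- Relators of K v S^2. -/
noncomputable def relK1 : Fin 6 → F4 := ![c1, c2, com u t, com q t, com z t, 1]
open W in
/-- Relators of L v S^2. -/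
noncomputable def relL1 : Fin 6 → F4 := ![c1, c2, com u' t, com q t, com z' t, 1]
open W in
/-- Relators of K. -/
noncomputable def relK : Fin 5 → F4 := ![c1, c2, com u t, com q t, com z t]
open W in
/-- Relators of L. -/
noncomputable def relL : Fin 5 → F4 := ![c1, c2, com u' t, com q t, com z' t]

/-- ALGEBRA MAIN STATEMENT: the cokernels of the two Fox matrices (over Z[Z^3], with one zero
row, i.e. for K v S^2 and L v S^2) are not semilinearly isomorphic. -/
def StALG : Prop :=
  ¬ ∃ (B : Gam ≃* Gam) (θ : FoxCoker genU relK1 ≃+ FoxCoker genU relL1),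
    ∀ (r : R3) (x : FoxCoker genU relK1), θ (r • x) = (ringOf B r) • θ x

end Pool.Agent.Helper80.SP
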